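import Pool.Agent.H.MP_ab73e1_co.helper55.Asym

/-!
# `d`-dimensional Rugby: `n ^ (1 + ε)` cops win in every dimension

The game, `CopsWin` and `RobberBeats` are defined in
`Pool.Agent.H.MP_ab73e1_co.helper55.Defs`.

For every `d`, every speed `s` and every `ε > 0`, for all sufficiently large `n`, any number
`m ≥ n ^ (1 + ε)` of cops has a winning strategy in `d`-dimensional Rugby against a robber of
speed `s`. So for `d ≥ 2` and `0 < ε < d - 1` no speed is enough for the robber to beat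
`n ^ (d - ε)` cops for all large `n`, and the conjectured statement is false.
-/

namespace Pool.Agent.Results.MP_ab73e1_co.RugbyDisproof

open Filter Pool.Agent.H.MP_ab73e1_co.helper55

theorem result :
    (∀ (d s : ℕ) (ε : ℝ), 0 < ε → ∀ᶠ n : ℕ in atTop, ∀ m : ℕ, (n : ℝ) ^ (1 + ε) ≤ m →
      CopsWin d n s m ∧ ¬ RobberBeats d n s m) ∧
    ¬ (∀ d : ℕ, 1 ≤ d → ∀ ε : ℝ, 0 < ε → ∃ s : ℕ, 2 ≤ s ∧
      ∀ᶠ n : ℕ in atTop, RobberBeats d n s ⌊(n : ℝ) ^ ((d : ℝ) - ε)⌋₊) := by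
  refine ⟨fun d s ε hε => ?_, ?_⟩
  · filter_upwards [copsWin_eventually d s ε hε] with n hn m hm
    exact ⟨hn m hm, not_robberBeats_of_copsWin (hn m hm)⟩
  intro hconj
  obtain ⟨s, -, hs⟩ := hconj 2 (by norm_num) (1 / 2) (by norm_num)
  have h1 := copsWin_eventually 2 s (1 / 4) (by norm_num)
  obtain ⟨n, hn1, hn2, hn3⟩ := (h1.and (hs.and (eventually_ge_atTop 16))).exists
  refine not_robberBeats_of_copsWin (hn1 _ ?_) hn2
  have hnR : (16 : ℝ) ≤ n := by exact_mod_cast hn3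
  have hn0 : (0 : ℝ) < n := by linarith
  have h2 : (2 : ℝ) ≤ (n : ℝ) ^ (1 / 4 : ℝ) := by
    have h3 : ((16 : ℝ)) ^ (1 / 4 : ℝ) ≤ (n : ℝ) ^ (1 / 4 : ℝ) :=
      Real.rpow_le_rpow (by norm_num) hnR (by norm_num)
    have h4 : ((16 : ℝ)) ^ (1 / 4 : ℝ) = 2 := by
      rw [show (16 : ℝ) = 2 ^ (4 : ℕ) by norm_num, ← Real.rpow_natCast,
        ← Real.rpow_mul (by norm_num)]
      norm_num
    linarith
  have h5 : (1 : ℝ) ≤ (n : ℝ) ^ (1 + 1 / 4 : ℝ) :=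
    Real.one_le_rpow (by linarith) (by norm_num)
  have h6 : (n : ℝ) ^ (((2 : ℕ) : ℝ) - 1 / 2) = (n : ℝ) ^ (1 + 1 / 4 : ℝ) *
      (n : ℝ) ^ (1 / 4 : ℝ) := by
    rw [← Real.rpow_add hn0]
    norm_num
  have h7 := Nat.lt_floor_add_one ((n : ℝ) ^ (((2 : ℕ) : ℝ) - 1 / 2))
  nlinarith

end Pool.Agent.Results.MP_ab73e1_co.RugbyDisproof
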